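import Pool.Agent.V11319.Comm.Final

/-!
# Primality of diagonal and anti-diagonal commutator ideals

For every field `K` and every `n ≥ 3` the ideal `J` generated by the anti-diagonal entries of the
commutator `C = XY - YX` of two generic `n × n` matrices, and the ideal `𝓘 = I + J` generated by
the diagonal and the anti-diagonal entries, are prime.

Idea. With `i' = n + 1 - i`, the four entries of `C` at the positions in `{i, i'} × {i, i'}` become,
after the linear change of variables `x_ii - x_i'i' → x_ii`, `y_ii - y_i'i' → y_ii`, and for the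
vectors `α = (x_ii, y_ii)`, `β = (x_ii', y_ii')`, `γ = (x_i'i, y_i'i)` the equations
`β ∧ γ + t_i = 0`, `α ∧ β + r_i = 0`, `γ ∧ α + r_i' = 0` and `T_i = t_i + t_i' = 0`, where `t`, `r`
only contain variables outside of the blocks `{i, i'} × {i, i'}`. The equations of the blocks are
added one block after the other; a switching lemma for regular elements
(`p` regular mod `I` and `q` regular mod `I + (p)` imply `p` regular mod `I + (q)`) and the
solution of linear equations with regular leading coefficient show that the ideals obtained are
prime.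
-/

set_option autoImplicit false

open MvPolynomial

namespace Pool.Agent.Results.MP_bf1dc4_ag.BothPrime

open Pool.Agent.V11319.Comm

/-- The polynomial ring in the `2n²` variables `x_ij` (tag `false`) and `y_ij` (tag `true`). -/
abbrev R (K : Type*) [Field K] (n : ℕ) : Type _ :=
  MvPolynomial ((Fin n × Fin n) × Bool) K

/-- The generic matrix `X = (x_ij)`. -/
noncomputable def genX (K : Type*) [Field K] (n : ℕ) : Matrix (Fin n) (Fin n) (R K n) :=
  Matrix.of fun i j => X ((i, j), false)

/-- The generic matrix `Y = (y_ij)`. -/
noncomputable def genY (K : Type*) [Field K] (n : ℕ) : Matrix (Fin n) (Fin n) (R K n) :=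
  Matrix.of fun i j => X ((i, j), true)

/-- The commutator matrix `C = XY - YX`. -/
noncomputable def comm (K : Type*) [Field K] (n : ℕ) : Matrix (Fin n) (Fin n) (R K n) :=
  genX K n * genY K n - genY K n * genX K n

/-- `I`, generated by the diagonal entries of `C`. -/
noncomputable def idealI (K : Type*) [Field K] (n : ℕ) : Ideal (R K n) :=
  Ideal.span (Set.range fun i => comm K n i i)

/-- `J`, generated by the anti-diagonal entries of `C` (`Fin.rev i` is `n + 1 - i`). -/
noncomputable def idealJ (K : Type*) [Field K] (n : ℕ) : Ideal (R K n) :=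
  Ideal.span (Set.range fun i => comm K n i (Fin.rev i))

lemma comm_eq (K : Type*) [Field K] (n : ℕ) (i j : Fin n) : comm K n i j = cc K i j := by
  unfold comm cc w genX genY
  rw [Matrix.sub_apply, Matrix.mul_apply, Matrix.mul_apply, ← Finset.sum_sub_distrib]
  rfl

/-- **Theorem.** For every field `K` and every `n ≥ 3`, both `𝓘 = I + J` and `J` are prime. -/
theorem result (K : Type*) [Field K] (n : ℕ) (hn : 3 ≤ n) :
    (idealI K n ⊔ idealJ K n).IsPrime ∧ (idealJ K n).IsPrime := by
  have hτ : Function.Involutive (Fin.rev : Fin n → Fin n) := Fin.rev_rev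
  have h3 : ∀ i : Fin n, ∃ k, k ≠ i ∧ k ≠ Fin.rev i := by
    intro i
    have hcard : ({i, Fin.rev i} : Finset (Fin n)).card < (Finset.univ : Finset (Fin n)).card := by
      refine lt_of_le_of_lt Finset.card_le_two ?_
      rw [Finset.card_univ, Fintype.card_fin]; omega
    obtain ⟨k, _, hk⟩ := Finset.exists_mem_notMem_of_card_lt_card hcard
    simp only [Finset.mem_insert, Finset.mem_singleton, not_or] at hk
    exact ⟨k, hk⟩
  have hfix : ∀ i j : Fin n, Fin.rev i = i → Fin.rev j = j → i = j := by
    intro i j hi hj
    have h1 := congrArg Fin.val hi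
    have h2 := congrArg Fin.val hj
    rw [Fin.val_rev] at h1 h2
    apply Fin.ext
    omega
  have : Nonempty (Fin n) := ⟨⟨0, by omega⟩⟩
  have eI : idealI K n = II (Fin n) K := by
    unfold idealI II
    simp only [comm_eq]
  have eJ : idealJ K n = JJ K (Fin.rev : Fin n → Fin n) := by
    unfold idealJ JJ
    simp only [comm_eq]
  rw [eI, eJ]
  exact ⟨II_sup_JJ_prime hτ h3, JJ_prime hτ h3 hfix⟩

end Pool.Agent.Results.MP_bf1dc4_ag.BothPrime
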